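import Pool.Agent.Helper93.UP.LDa

/-!
# UP/LDb: counting common nodes
-/

open Set
open Pool.Agent.Helper83.OP Pool.Agent.Helper83.LN

namespace Pool.Agent.Helper93.UP

section

variable {J I : Type} {src tgt : I → J}

theorem common_comm (R R' : Rt J I src tgt) : common R R' = common R' R := by
  ext j
  exact And.comm

theorem common_le_hits (R R' : Rt J I src tgt) (X : Set J) (hR : ∀ t ≤ R.len, R.nd t ∈ X) :
    (common R R').ncard ≤ {i | i ≤ R'.len ∧ R'.nd i ∈ X}.ncard := by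
  have hfin : ({i | i ≤ R'.len ∧ R'.nd i ∈ X} : Set ℕ).Finite :=
    (Set.finite_Iic R'.len).subset (fun i hi => hi.1)
  have hsub : common R R' ⊆ R'.nd '' {i | i ≤ R'.len ∧ R'.nd i ∈ X} := by
    rintro j ⟨⟨s, hs, rfl⟩, t, ht, he⟩
    refine ⟨t, ⟨ht, ?_⟩, he⟩
    rw [he]
    exact hR s hs
  exact (Set.ncard_le_ncard hsub (hfin.image _)).trans (Set.ncard_image_le hfin)

end

section

variable {V T : Type} {G H : SimpleGraph V}

theorem vn_mem_oldN {Th : Threads G T} {Z : Plz H} {τ : T} {v : V}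
    (h : Z.vn v ∈ oldN Th Z τ) : ∃ s ≤ Th.len τ, v = Th.x τ s := by
  rcases h with ⟨s, hs, he⟩ | ⟨f, _, he⟩
  · exact ⟨s, hs, Z.vn_inj he⟩
  · exact absurd he (Z.vn_ne v f)

theorem bn_mem_oldN {Th : Threads G T} {Z : Plz H} {τ : T} {f : H.edgeSet}
    (h : Z.bn f ∈ oldN Th Z τ) : ∃ f' : H.edgeSet, Z.bn f' = Z.bn f ∧
      ∃ s < Th.len τ, (f' : Sym2 V) = s(Th.x τ s, Th.x τ (s + 1)) := by
  rcases h with ⟨s, hs, he⟩ | ⟨f', hs, he⟩
  · exact absurd he.symm (Z.vn_ne _ f)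
  · exact ⟨f', he.symm, hs⟩

open Classical in
/-- the common nodes of two old curves -/
theorem old_old_one (Th : Threads G T) (Z : Plz H) (τ τ' : T) (hne : τ' ≠ τ)
    (hH : ∀ t < Th.len τ, H.Adj (Th.x τ t) (Th.x τ (t + 1))) (bnd : ℕ → Z.J)
    (hbnd : ∀ s (hs : s < Th.len τ), bnd s = Z.bn ⟨s(Th.x τ s, Th.x τ (s + 1)), hH s hs⟩) :
    (oldN Th Z τ ∩ oldN Th Z τ').ncard ≤
      (if Z.vn (Th.x τ 0) ∈ oldN Th Z τ' then 1 else 0) +
      (if Z.vn (Th.x τ (Th.len τ)) ∈ oldN Th Z τ' then 1 else 0) +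
      ∑ s ∈ Finset.range (Th.len τ), (if bnd s ∈ oldN Th Z τ' then 1 else 0) := by
  set A : Finset Z.J := if Z.vn (Th.x τ 0) ∈ oldN Th Z τ' then {Z.vn (Th.x τ 0)} else ∅ with hA
  set A' : Finset Z.J := if Z.vn (Th.x τ (Th.len τ)) ∈ oldN Th Z τ' then
    {Z.vn (Th.x τ (Th.len τ))} else ∅ with hA'
  set B : Finset Z.J := ((Finset.range (Th.len τ)).filter
    (fun s => bnd s ∈ oldN Th Z τ')).image bnd with hB
  have hAc : A.card = if Z.vn (Th.x τ 0) ∈ oldN Th Z τ' then 1 else 0 := by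
    rw [hA]
    split_ifs <;> simp
  have hAc' : A'.card = if Z.vn (Th.x τ (Th.len τ)) ∈ oldN Th Z τ' then 1 else 0 := by
    rw [hA']
    split_ifs <;> simp
  have hBc : B.card ≤ ∑ s ∈ Finset.range (Th.len τ),
      (if bnd s ∈ oldN Th Z τ' then 1 else 0) := by
    rw [← Finset.card_filter]
    exact Finset.card_image_le
  have hsub : oldN Th Z τ ∩ oldN Th Z τ' ⊆ ((A ∪ A' ∪ B : Finset Z.J) : Set Z.J) := by
    rintro j ⟨h1, h2⟩
    rw [Finset.mem_coe, Finset.mem_union, Finset.mem_union]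
    rcases h1 with ⟨s, hs, rfl⟩ | ⟨f, ⟨s, hs, hf⟩, rfl⟩
    · left
      obtain ⟨s', hs', he⟩ := vn_mem_oldN h2
      by_cases h0 : s = 0
      · left
        subst h0
        rw [hA, if_pos h2]
        exact Finset.mem_singleton_self _
      · by_cases hl : s = Th.len τ
        · right
          subst hl
          rw [hA', if_pos h2]
          exact Finset.mem_singleton_self _
        · exact absurd (Th.inner τ s (by omega) (by omega) τ' s' hs' he.symm) hne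
    · right
      have hf' : f = ⟨s(Th.x τ s, Th.x τ (s + 1)), hH s hs⟩ := Subtype.ext hf
      rw [hf'] at h2 ⊢
      rw [← hbnd s hs] at h2 ⊢
      rw [hB]
      exact Finset.mem_image_of_mem _ (Finset.mem_filter.2 ⟨Finset.mem_range.2 hs, h2⟩)
  refine (Set.ncard_le_ncard hsub (Finset.finite_toSet _)).trans ?_
  rw [Set.ncard_coe_finset]
  have h3 := Finset.card_union_le (A ∪ A') B
  have h4 := Finset.card_union_le A A'
  omega

open Classical in
/-- the old curves of an old curve: at most the length and two weights -/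
theorem old_old [Finite V] [Fintype T] (Th : Threads G T) (Z : Plz H) (S0 S : Set T)
    (hS : S0 ⊆ S) (hH : ∀ τ, τ ∉ S0 → ∀ t < Th.len τ, H.Adj (Th.x τ t) (Th.x τ (t + 1)))
    (D : ℕ) (hD : ∀ j, wt Z j ≤ D) (τ : T) (hτ : τ ∉ S) :
    ∑ τ' : T, (if τ' = τ ∨ τ' ∈ S then 0 else (oldN Th Z τ ∩ oldN Th Z τ').ncard) ≤
      2 * D + Th.len τ := by
  have hτ0 : τ ∉ S0 := fun h => hτ (hS h)
  let bnd : ℕ → Z.J := fun s => if hs : s < Th.len τ then
    Z.bn ⟨s(Th.x τ s, Th.x τ (s + 1)), hH τ hτ0 s hs⟩ else Z.vn (Th.x τ 0)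
  have hbnd : ∀ s (hs : s < Th.len τ),
      bnd s = Z.bn ⟨s(Th.x τ s, Th.x τ (s + 1)), hH τ hτ0 s hs⟩ := fun s hs => dif_pos hs
  have h1 : ∀ τ' ∈ (Finset.univ : Finset T),
      (if τ' = τ ∨ τ' ∈ S then 0 else (oldN Th Z τ ∩ oldN Th Z τ').ncard) ≤
      (if τ' ∉ S0 ∧ Z.vn (Th.x τ 0) ∈ oldN Th Z τ' then 1 else 0) +
      (if τ' ∉ S0 ∧ Z.vn (Th.x τ (Th.len τ)) ∈ oldN Th Z τ' then 1 else 0) +
      ∑ s ∈ Finset.range (Th.len τ),
        (if (τ' ≠ τ ∧ τ' ∉ S0) ∧ bnd s ∈ oldN Th Z τ' then 1 else 0) := by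
    intro τ' _
    by_cases h2 : τ' = τ ∨ τ' ∈ S
    · rw [if_pos h2]
      exact Nat.zero_le _
    · rw [if_neg h2]
      have h2a : τ' ≠ τ := fun h => h2 (Or.inl h)
      have h2b : τ' ∉ S0 := fun h => h2 (Or.inr (hS h))
      have h3 := old_old_one Th Z τ τ' h2a (hH τ hτ0) bnd hbnd
      simp only [h2a, h2b, ne_eq, not_false_eq_true, true_and]
      exact h3
  refine (Finset.sum_le_sum h1).trans ?_
  rw [Finset.sum_add_distrib, Finset.sum_add_distrib, Finset.sum_comm]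
  have h5 : ∀ j : Z.J, ∑ τ' : T, (if τ' ∉ S0 ∧ j ∈ oldN Th Z τ' then 1 else 0) ≤ D := by
    intro j
    rw [← Finset.card_filter]
    refine le_trans ?_ ((old_count Th Z S0 hH j).trans (hD j))
    rw [← Set.ncard_coe_finset]
    apply Set.ncard_le_ncard _ (Set.toFinite _)
    intro τ' h
    exact (Finset.mem_filter.1 (Finset.mem_coe.1 h)).2
  have h6 : ∑ s ∈ Finset.range (Th.len τ), ∑ τ' : T,
      (if (τ' ≠ τ ∧ τ' ∉ S0) ∧ bnd s ∈ oldN Th Z τ' then 1 else 0) ≤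
      ∑ s ∈ Finset.range (Th.len τ), 1 := by
    apply Finset.sum_le_sum
    intro s hs
    have hs' := Finset.mem_range.1 hs
    rw [← Finset.card_filter, Finset.card_le_one]
    intro τ1 h1' τ2 h2'
    have g1 := (Finset.mem_filter.1 h1').2
    have g2 := (Finset.mem_filter.1 h2').2
    rw [hbnd s hs'] at g1 g2
    obtain ⟨f1, e1, s1, hs1, k1⟩ := bn_mem_oldN g1.2
    obtain ⟨f2, e2, s2, hs2, k2⟩ := bn_mem_oldN g2.2
    set f : H.edgeSet := ⟨s(Th.x τ s, Th.x τ (s + 1)), hH τ hτ0 s hs'⟩ with hf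
    have n1 : f1 ≠ f := by
      intro h
      have h' : (f1 : Sym2 V) = s(Th.x τ s, Th.x τ (s + 1)) := by rw [h]
      exact g1.1.1 (Th.uniq τ1 τ s1 s hs1 hs' (k1.symm.trans h')).1
    have n2 : f2 ≠ f := by
      intro h
      have h' : (f2 : Sym2 V) = s(Th.x τ s, Th.x τ (s + 1)) := by rw [h]
      exact g2.1.1 (Th.uniq τ2 τ s2 s hs2 hs' (k2.symm.trans h')).1
    have h12 := Z.pair f f1 f2 n1 n2 e1 e2
    have h' : (f1 : Sym2 V) = f2 := by rw [h12]
    exact (Th.uniq τ1 τ2 s1 s2 hs1 hs2 (k1.symm.trans (h'.trans k2))).1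
  rw [Finset.sum_const, Finset.card_range, smul_eq_mul, mul_one] at h6
  have h7 := h5 (Z.vn (Th.x τ 0))
  have h8 := h5 (Z.vn (Th.x τ (Th.len τ)))
  omega

end

end Pool.Agent.Helper93.UP
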