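import Pool.Agent.Helper93.UP.LDc
import Pool.Agent.Helper83.LN.Main
import Pool.Agent.Helper95.UP.NodeCost

/-!
# UP/LD: closure and surgery
-/

open Set
open Pool.Agent.Helper83.OP Pool.Agent.Helper83.LN

namespace Pool.Agent.Helper93.UP

/-- **Closure and surgery.** `H` is a subgraph of `G` with a planarised drawing `Z` and a layout `L` of its node
graph; the threads outside `S0` are short, lie in `H` and have fixed ends; the places of the ends of every thread are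
joined by a walk of the node graph of cost at most `K1` times the length of the thread. Then `G` is `K`-planar. -/
theorem surg_close (C K1 : ℕ) : ∃ K : ℕ, ∀ (V T : Type) [Finite V] [Fintype T]
    (G H : SimpleGraph V) (Th : Threads G T) (Z : Plz H)
    (_ : Layout Z.J (H.edgeSet × Bool) Z.src Z.tgt), H.edgeSet.Nonempty → H ≤ G →
    ∀ (pl : V → V) (r : ℕ) (S0 : Finset T),
    1 ≤ r → (∀ v, deg G v ≤ C * r) → S0.card ≤ C * r →
    (∀ τ, r ≤ Th.len τ) → (∀ τ, τ ∉ S0 → Th.len τ ≤ 2 * r) →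
    (∀ τ, τ ∉ S0 → (∀ t < Th.len τ, H.Adj (Th.x τ t) (Th.x τ (t + 1))) ∧
      pl (Th.x τ 0) = Th.x τ 0 ∧ pl (Th.x τ (Th.len τ)) = Th.x τ (Th.len τ)) →
    (∀ τ, ∃ l, Wk Z.src Z.tgt (Z.vn (pl (Th.x τ 0))) (Z.vn (pl (Th.x τ (Th.len τ)))) l ∧
      Pool.Agent.Helper83.LN.wcost (fun i => Helper95.UP.dg Z.src Z.tgt (Z.src i) +
        Helper95.UP.dg Z.src Z.tgt (Z.tgt i)) l ≤ K1 * Th.len τ) →
    KPl K G := by
  classical
  obtain ⟨K, hK⟩ := load_bound C K1
  refine ⟨K, ?_⟩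
  intro V T _ _ G H Th Z L hne hHG pl r S0 hr hdeg hS0 hlen hlen2 hold hwalk
  obtain ⟨Gam, hGam, hsurg⟩ := surgery H Z L hne (cst Z)
  obtain ⟨S, hS, hload⟩ := hK V T G H Th Z hHG pl r S0 Gam hGam hr hdeg hS0 hlen hlen2 hold hwalk
  obtain ⟨R, _, hRS, hRold, hKPl⟩ := hsurg G T Th (S : Set T) pl
    (fun τ hτ => hold τ (fun h => hτ (Finset.mem_coe.2 (hS h))))
    (fun τ _ => by
      obtain ⟨l, hl, _⟩ := hwalk τ
      exact ⟨l, hl⟩)
  apply hKPl K
  have h1 := hload R (fun τ hτ => hRS τ (Finset.mem_coe.2 hτ)) (by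
    intro τ hτ t ht
    exact hRold τ (fun h => hτ (Finset.mem_coe.1 h)) t ht)
  intro τ
  exact h1 τ

/-- a walk of `H` as a walk of half edges, with its cost -/
theorem walk_cost {V : Type} [Finite V] {H : SimpleGraph V} (Z : Plz H) {u v : V}
    (p : H.Walk u v) :
    ∃ l, Wk Z.src Z.tgt (Z.vn u) (Z.vn v) l ∧
      Pool.Agent.Helper83.LN.wcost (fun i => Helper95.UP.dg Z.src Z.tgt (Z.src i) +
        Helper95.UP.dg Z.src Z.tgt (Z.tgt i)) l ≤
        2 * (p.support.map (deg H)).sum + 8 * p.length := by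
  obtain ⟨l, hl, hc⟩ := wk_of_walk Z p
  refine ⟨l, hl, ?_⟩
  change wcost (cst Z) l ≤ _
  omega

end Pool.Agent.Helper93.UP
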