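import Mathlib

/-!
# UP/CL: the closure lemma (pieces version)

`d` is a (pseudo)metric with values in `ℕ` on the nodes, `dg t` the weight of the node `t`.
Every piece `q` has a geodesic `γ q` from `p q` to `p' q`; the pieces outside `S0` have old curves
`ω q` of bounded extent. `S` is a minimal set containing `S0` outside of which every old curve is
visited at most `K * r` times by the geodesics of `S`. The proof that few geodesics of `S` meet a
given geodesic uses the potential `1 / (d z (p q) + r) ^ 2`.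
-/

namespace Pool.Agent.Helper93.UP

/-- a geodesic (list of nodes with cost positions) from `a` to `b`; every step costs at least the
weight `dg` of both of its ends -/
structure Geod {N : Type} (d : N → N → ℕ) (dg : N → ℕ) (a b : N) where
  n : ℕ
  g : ℕ → N
  s : ℕ → ℕ
  g_zero : g 0 = a
  g_last : g n = b
  mono : ∀ i j, i ≤ j → j ≤ n → s i ≤ s j
  dist : ∀ i j, i ≤ j → j ≤ n → d (g i) (g j) = s j - s i
  step_left : ∀ i, i < n → dg (g i) ≤ s (i + 1) - s i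
  step_right : ∀ i, i < n → dg (g (i + 1)) ≤ s (i + 1) - s i

/-- the nodes of a geodesic -/
def Geod.nodes {N : Type} {d : N → N → ℕ} {dg : N → ℕ} {a b : N} (γ : Geod d dg a b) : Set N :=
  {t | ∃ i, i ≤ γ.n ∧ t = γ.g i}

/-- the number of visits of a geodesic in a set of nodes -/
noncomputable def Geod.hits {N : Type} {d : N → N → ℕ} {dg : N → ℕ} {a b : N}
    (γ : Geod d dg a b) (X : Set N) : ℕ :=
  {i | i ≤ γ.n ∧ γ.g i ∈ X}.ncard

theorem inv_step {x y : ℝ} (hy : 0 < y) (hxy : y ≤ x) :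
    (x - y) * (1 / x ^ 2) ≤ 1 / y - 1 / x := by
  have hx : 0 < x := lt_of_lt_of_le hy hxy
  have h1 : 1 / y - 1 / x = (x - y) * (1 / (x * y)) := by
    field_simp
  rw [h1]
  apply mul_le_mul_of_nonneg_left _ (by linarith)
  apply one_div_le_one_div_of_le (by positivity)
  nlinarith

section
variable {N : Type} {d : N → N → ℕ} {dg : N → ℕ} {a b : N}

open Classical in
theorem Geod.hits_eq (γ : Geod d dg a b) (X : Set N) :
    γ.hits X = ∑ i ∈ Finset.range (γ.n + 1), (if γ.g i ∈ X then 1 else 0) := by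
  have h : {i | i ≤ γ.n ∧ γ.g i ∈ X} =
      (((Finset.range (γ.n + 1)).filter (fun i => γ.g i ∈ X) : Finset ℕ) : Set ℕ) := by
    ext i
    simp
  rw [Geod.hits, h, Set.ncard_coe_finset, Finset.card_filter]

theorem Geod.len_eq (γ : Geod d dg a b) : d a b = γ.s γ.n - γ.s 0 := by
  have h := γ.dist 0 γ.n (Nat.zero_le _) le_rfl
  rwa [γ.g_zero, γ.g_last] at h

theorem Geod.sum_dg (γ : Geod d dg a b) :
    ∑ i ∈ Finset.range (γ.n + 1), dg (γ.g i) ≤ dg a + d a b := by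
  have key : ∀ m, m ≤ γ.n → ∑ i ∈ Finset.range (m + 1), dg (γ.g i) ≤ dg a + (γ.s m - γ.s 0) := by
    intro m
    induction m with
    | zero =>
      intro _
      simp [γ.g_zero]
    | succ m ih =>
      intro hm
      rw [Finset.sum_range_succ]
      have h1 := ih (by omega)
      have h2 := γ.step_right m (by omega)
      have h3 := γ.mono 0 m (by omega) (by omega)
      have h4 := γ.mono m (m + 1) (by omega) hm
      omega
  have := key γ.n le_rfl
  rw [γ.len_eq]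
  exact this

/-- right part of the telescoping sum -/
theorem tele_right (γ : Geod d dg a b) (z : N) (r : ℕ) (hr : 1 ≤ r)
    (m : ℕ) (hd : ∀ k, m ≤ k → k ≤ γ.n → γ.s k - γ.s m ≤ 2 * d z (γ.g k)) :
    ∀ k, m + k ≤ γ.n → ∑ i ∈ Finset.range k, (dg (γ.g (m + 1 + i)) : ℝ) *
      (1 / ((d z (γ.g (m + 1 + i)) : ℝ) + r) ^ 2) ≤
      2 * (1 / (r : ℝ) - 1 / (((γ.s (m + k) - γ.s m : ℕ) : ℝ) / 2 + r)) := by
  have hr' : (1 : ℝ) ≤ r := by exact_mod_cast hr
  intro k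
  induction k with
  | zero =>
    intro _
    simp
  | succ k ih =>
    intro hk
    rw [Finset.sum_range_succ]
    have hik := ih (by omega)
    set x : ℝ := ((γ.s (m + (k + 1)) - γ.s m : ℕ) : ℝ) / 2 + r with hx
    set y : ℝ := ((γ.s (m + k) - γ.s m : ℕ) : ℝ) / 2 + r with hy
    have hm1 : γ.s (m + k) ≤ γ.s (m + (k + 1)) := γ.mono _ _ (by omega) (by omega)
    have hm0 : γ.s m ≤ γ.s (m + k) := γ.mono _ _ (by omega) (by omega)
    have hyx : y ≤ x := by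
      rw [hx, hy]
      have : ((γ.s (m + k) - γ.s m : ℕ) : ℝ) ≤ ((γ.s (m + (k + 1)) - γ.s m : ℕ) : ℝ) := by
        exact_mod_cast Nat.sub_le_sub_right hm1 _
      linarith
    have hy0 : 0 < y := by
      rw [hy]
      positivity
    have hx0 : 0 < x := lt_of_lt_of_le hy0 hyx
    have hc := inv_step hy0 hyx
    have hstep : (dg (γ.g (m + 1 + k)) : ℝ) ≤ 2 * (x - y) := by
      have e : m + 1 + k = m + k + 1 := by ring
      have h := γ.step_right (m + k) (by omega)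
      rw [e]
      have h' : dg (γ.g (m + k + 1)) + (γ.s (m + k) - γ.s m) ≤ γ.s (m + (k + 1)) - γ.s m := by
        have e2 : m + (k + 1) = m + k + 1 := by ring
        rw [e2] at hm1 ⊢
        omega
      have h'' : (dg (γ.g (m + k + 1)) : ℝ) + ((γ.s (m + k) - γ.s m : ℕ) : ℝ) ≤
          ((γ.s (m + (k + 1)) - γ.s m : ℕ) : ℝ) := by exact_mod_cast h'
      rw [hx, hy]
      linarith
    have hdz : x ≤ (d z (γ.g (m + 1 + k)) : ℝ) + r := by
      have e : m + 1 + k = m + (k + 1) := by ring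
      rw [e]
      have h := hd (m + (k + 1)) (by omega) hk
      have h' : ((γ.s (m + (k + 1)) - γ.s m : ℕ) : ℝ) ≤ 2 * (d z (γ.g (m + (k + 1))) : ℝ) := by
        exact_mod_cast h
      rw [hx]
      linarith
    have hpow : 1 / ((d z (γ.g (m + 1 + k)) : ℝ) + r) ^ 2 ≤ 1 / x ^ 2 := by
      apply one_div_le_one_div_of_le (by positivity)
      exact pow_le_pow_left₀ hx0.le hdz 2
    have hterm : (dg (γ.g (m + 1 + k)) : ℝ) * (1 / ((d z (γ.g (m + 1 + k)) : ℝ) + r) ^ 2) ≤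
        2 * (1 / y - 1 / x) := by
      calc (dg (γ.g (m + 1 + k)) : ℝ) * (1 / ((d z (γ.g (m + 1 + k)) : ℝ) + r) ^ 2) ≤
          (2 * (x - y)) * (1 / x ^ 2) :=
            mul_le_mul hstep hpow (by positivity) (by linarith)
        _ = 2 * ((x - y) * (1 / x ^ 2)) := by ring
        _ ≤ 2 * (1 / y - 1 / x) := by linarith
    linarith

/-- left part of the telescoping sum -/
theorem tele_left (γ : Geod d dg a b) (z : N) (r : ℕ) (hr : 1 ≤ r)
    (m : ℕ) (hm : m ≤ γ.n) (hd : ∀ k, k ≤ m → γ.s m - γ.s k ≤ 2 * d z (γ.g k)) :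
    ∀ k, k ≤ m → ∑ i ∈ Finset.range k, (dg (γ.g i) : ℝ) *
      (1 / ((d z (γ.g i) : ℝ) + r) ^ 2) ≤
      2 * (1 / (((γ.s m - γ.s k : ℕ) : ℝ) / 2 + r) - 1 / (((γ.s m - γ.s 0 : ℕ) : ℝ) / 2 + r)) := by
  have hr' : (1 : ℝ) ≤ r := by exact_mod_cast hr
  intro k
  induction k with
  | zero =>
    intro _
    simp
  | succ k ih =>
    intro hk
    rw [Finset.sum_range_succ]
    have hik := ih (by omega)
    set x : ℝ := ((γ.s m - γ.s k : ℕ) : ℝ) / 2 + r with hx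
    set y : ℝ := ((γ.s m - γ.s (k + 1) : ℕ) : ℝ) / 2 + r with hy
    have hm1 : γ.s k ≤ γ.s (k + 1) := γ.mono _ _ (by omega) (by omega)
    have hm2 : γ.s (k + 1) ≤ γ.s m := γ.mono _ _ (by omega) (by omega)
    have hyx : y ≤ x := by
      rw [hx, hy]
      have : ((γ.s m - γ.s (k + 1) : ℕ) : ℝ) ≤ ((γ.s m - γ.s k : ℕ) : ℝ) := by
        exact_mod_cast Nat.sub_le_sub_left hm1 _
      linarith
    have hy0 : 0 < y := by
      rw [hy]
      positivity
    have hx0 : 0 < x := lt_of_lt_of_le hy0 hyx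
    have hc := inv_step hy0 hyx
    have hstep : (dg (γ.g k) : ℝ) ≤ 2 * (x - y) := by
      have h := γ.step_left k (by omega)
      have h' : dg (γ.g k) + (γ.s m - γ.s (k + 1)) ≤ γ.s m - γ.s k := by omega
      have h'' : (dg (γ.g k) : ℝ) + ((γ.s m - γ.s (k + 1) : ℕ) : ℝ) ≤
          ((γ.s m - γ.s k : ℕ) : ℝ) := by exact_mod_cast h'
      rw [hx, hy]
      linarith
    have hdz : x ≤ (d z (γ.g k) : ℝ) + r := by
      have h := hd k (by omega)
      have h' : ((γ.s m - γ.s k : ℕ) : ℝ) ≤ 2 * (d z (γ.g k) : ℝ) := by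
        exact_mod_cast h
      rw [hx]
      linarith
    have hpow : 1 / ((d z (γ.g k) : ℝ) + r) ^ 2 ≤ 1 / x ^ 2 := by
      apply one_div_le_one_div_of_le (by positivity)
      exact pow_le_pow_left₀ hx0.le hdz 2
    have hterm : (dg (γ.g k) : ℝ) * (1 / ((d z (γ.g k) : ℝ) + r) ^ 2) ≤
        2 * (1 / y - 1 / x) := by
      calc (dg (γ.g k) : ℝ) * (1 / ((d z (γ.g k) : ℝ) + r) ^ 2) ≤
          (2 * (x - y)) * (1 / x ^ 2) :=
            mul_le_mul hstep hpow (by positivity) (by linarith)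
        _ = 2 * ((x - y) * (1 / x ^ 2)) := by ring
        _ ≤ 2 * (1 / y - 1 / x) := by linarith
    linarith

/-- the potential sum along a geodesic -/
theorem geo_sum (hsymm : ∀ x y, d x y = d y x) (htri : ∀ x y z, d x z ≤ d x y + d y z)
    (γ : Geod d dg a b) (z : N) (r C : ℕ) (hr : 1 ≤ r)
    (hC : ∀ t, dg t ≤ C * r) :
    ∑ i ∈ Finset.range (γ.n + 1), (dg (γ.g i) : ℝ) * (1 / ((d z (γ.g i) : ℝ) + r) ^ 2) ≤
      (4 + C) / (r : ℝ) := by
  have hr' : (1 : ℝ) ≤ r := by exact_mod_cast hr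
  have hr0 : (0 : ℝ) < r := by linarith
  -- the node nearest to `z`
  obtain ⟨m, hm, hmin⟩ := Finset.exists_min_image (Finset.range (γ.n + 1)) (fun i => d z (γ.g i))
    ⟨0, by simp⟩
  have hmn : m ≤ γ.n := by
    have := Finset.mem_range.1 hm
    omega
  have hmin' : ∀ k, k ≤ γ.n → d z (γ.g m) ≤ d z (γ.g k) := by
    intro k hk
    exact hmin k (Finset.mem_range.2 (by omega))
  have hR : ∀ k, m ≤ k → k ≤ γ.n → γ.s k - γ.s m ≤ 2 * d z (γ.g k) := by
    intro k hk hkn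
    have h2 := γ.dist m k hk hkn
    have h3 := htri (γ.g m) z (γ.g k)
    have h4 := hsymm (γ.g m) z
    have h5 := hmin' k hkn
    omega
  have hL : ∀ k, k ≤ m → γ.s m - γ.s k ≤ 2 * d z (γ.g k) := by
    intro k hk
    have h2 := γ.dist k m hk hmn
    have h3 := htri (γ.g k) z (γ.g m)
    have h4 := hsymm (γ.g k) z
    have h5 := hmin' k (by omega)
    omega
  have tR := tele_right γ z r hr m hR (γ.n - m) (by omega)
  have tL := tele_left γ z r hr m hmn hL m le_rfl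
  have e1 : γ.n + 1 = m + 1 + (γ.n - m) := by omega
  rw [e1, Finset.sum_range_add, Finset.sum_range_succ]
  have hmid : (dg (γ.g m) : ℝ) * (1 / ((d z (γ.g m) : ℝ) + r) ^ 2) ≤ C / (r : ℝ) := by
    have q1 : (dg (γ.g m) : ℝ) ≤ C * r := by exact_mod_cast hC (γ.g m)
    have q2 : 1 / ((d z (γ.g m) : ℝ) + r) ^ 2 ≤ 1 / (r : ℝ) ^ 2 := by
      apply one_div_le_one_div_of_le (by positivity)
      apply pow_le_pow_left₀ hr0.le
      have : (0 : ℝ) ≤ (d z (γ.g m) : ℝ) := by positivity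
      linarith
    calc (dg (γ.g m) : ℝ) * (1 / ((d z (γ.g m) : ℝ) + r) ^ 2) ≤ (C * r) * (1 / (r : ℝ) ^ 2) :=
          mul_le_mul q1 q2 (by positivity) (by positivity)
      _ = C / (r : ℝ) := by
        field_simp
  have p1 : (0 : ℝ) ≤ 1 / (((γ.s (m + (γ.n - m)) - γ.s m : ℕ) : ℝ) / 2 + r) := by positivity
  have p2 : (0 : ℝ) ≤ 1 / (((γ.s m - γ.s 0 : ℕ) : ℝ) / 2 + r) := by positivity
  have p3 : 1 / (((γ.s m - γ.s m : ℕ) : ℝ) / 2 + r) = 1 / (r : ℝ) := by simp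
  rw [p3] at tL
  have e4 : (4 + C) / (r : ℝ) = 4 * (1 / (r : ℝ)) + C / (r : ℝ) := by ring
  rw [e4]
  linarith


/-- comparison of the potentials at two nodes at distance `≤ K1 * r` -/
theorem pot_comp (htri : ∀ x y z, d x z ≤ d x y + d y z) (z t u : N) (r K1 : ℕ) (hr : 1 ≤ r)
    (h : d u t ≤ K1 * r) :
    1 / ((d z u : ℝ) + r) ^ 2 ≤ ((K1 : ℝ) + 1) ^ 2 * (1 / ((d z t : ℝ) + r) ^ 2) := by
  have hr' : (1 : ℝ) ≤ r := by exact_mod_cast hr
  have h1 : (d z t : ℝ) ≤ d z u + K1 * r := by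
    have := (htri z u t).trans (Nat.add_le_add_left h _)
    exact_mod_cast this
  have h2 : (d z t : ℝ) + r ≤ ((K1 : ℝ) + 1) * ((d z u : ℝ) + r) := by
    have h3 : (0 : ℝ) ≤ (K1 : ℝ) * (d z u : ℝ) := by positivity
    nlinarith
  have h4 : (0 : ℝ) < (d z t : ℝ) + r := by positivity
  have h5 : (0 : ℝ) < (d z u : ℝ) + r := by positivity
  rw [mul_one_div, div_le_div_iff₀ (by positivity) (by positivity), one_mul, ← mul_pow]
  exact pow_le_pow_left₀ h4.le h2 2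

end

section
variable {N Q : Type} [Fintype Q] [DecidableEq Q] {d : N → N → ℕ} {dg : N → ℕ}
  {p p' : Q → N}

/-- a minimal admissible set of pieces: every piece outside `S0` in it is overloaded -/
theorem exists_min (load : Finset Q → Q → ℕ) (hmono : ∀ S T h, S ⊆ T → load S h ≤ load T h)
    (S0 : Finset Q) (B : ℕ) :
    ∃ S : Finset Q, S0 ⊆ S ∧ (∀ h ∉ S, load S h ≤ B) ∧ ∀ h ∈ S, h ∉ S0 → B < load S h := by
  classical
  obtain ⟨S, hS, hmin⟩ := Finset.exists_min_image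
    ((Finset.univ : Finset (Finset Q)).filter (fun S => S0 ⊆ S ∧ ∀ h ∉ S, load S h ≤ B))
    Finset.card ⟨Finset.univ, by simp⟩
  have hS' := (Finset.mem_filter.1 hS).2
  refine ⟨S, hS'.1, hS'.2, ?_⟩
  intro h hh h0
  by_contra hcon
  have hcon' : load S h ≤ B := not_lt.1 hcon
  have hP : S.erase h ∈ ((Finset.univ : Finset (Finset Q)).filter
      (fun S => S0 ⊆ S ∧ ∀ h ∉ S, load S h ≤ B)) := by
    rw [Finset.mem_filter]
    refine ⟨Finset.mem_univ _, ?_, ?_⟩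
    · intro x hx
      rw [Finset.mem_erase]
      refine ⟨?_, hS'.1 hx⟩
      rintro rfl
      exact h0 hx
    · intro h' hh'
      by_cases e : h' = h
      · subst e
        exact (hmono _ _ _ (Finset.erase_subset _ _)).trans hcon'
      · have : h' ∉ S := by
          intro hm
          exact hh' (Finset.mem_erase.2 ⟨e, hm⟩)
        exact (hmono _ _ _ (Finset.erase_subset _ _)).trans (hS'.2 h' this)
  have h1 := hmin _ hP
  have h2 := Finset.card_erase_lt_of_mem hh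
  omega

open Classical in
omit [DecidableEq Q] in
/-- the visits of a geodesic in the old curves, weighted by the potential -/
theorem visits_le (htri : ∀ x y z, d x z ≤ d x y + d y z)
    (hsymm : ∀ x y, d x y = d y x) (ω : Q → Set N) (S0 L : Finset Q)
    (hL : ∀ h ∈ L, h ∉ S0) (r K1 : ℕ) (hr : 1 ≤ r)
    (hω1 : ∀ t, {q | q ∉ S0 ∧ t ∈ ω q}.ncard ≤ dg t)
    (hω2 : ∀ q ∉ S0, ∀ t ∈ ω q, d t (p q) ≤ K1 * r) (z : N) {a b : N} (γ : Geod d dg a b) :
    ∑ h ∈ L, (γ.hits (ω h) : ℝ) * (1 / ((d z (p h) : ℝ) + r) ^ 2) ≤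
      ((K1 : ℝ) + 1) ^ 2 * ∑ i ∈ Finset.range (γ.n + 1),
        (dg (γ.g i) : ℝ) * (1 / ((d z (γ.g i) : ℝ) + r) ^ 2) := by
  have e1 : ∀ h ∈ L, (γ.hits (ω h) : ℝ) * (1 / ((d z (p h) : ℝ) + r) ^ 2) =
      ∑ i ∈ Finset.range (γ.n + 1),
        (if γ.g i ∈ ω h then (1 / ((d z (p h) : ℝ) + r) ^ 2) else 0) := by
    intro h _
    rw [γ.hits_eq, Nat.cast_sum, Finset.sum_mul]
    apply Finset.sum_congr rfl
    intro i _
    split_ifs <;> simp
  rw [Finset.sum_congr rfl e1, Finset.sum_comm, Finset.mul_sum]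
  apply Finset.sum_le_sum
  intro i _
  set t := γ.g i with ht
  set c : ℝ := ((K1 : ℝ) + 1) ^ 2 * (1 / ((d z t : ℝ) + r) ^ 2) with hc
  have hc0 : 0 ≤ c := by positivity
  have h1 : ∀ h ∈ L, (if t ∈ ω h then (1 / ((d z (p h) : ℝ) + r) ^ 2) else 0) ≤
      (if t ∈ ω h then c else 0) := by
    intro h hh
    split_ifs with hm
    · apply pot_comp htri z t (p h) r K1 hr
      rw [hsymm]
      exact hω2 h (hL h hh) t hm
    · exact le_rfl
  refine (Finset.sum_le_sum h1).trans ?_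
  rw [← Finset.sum_filter, Finset.sum_const, nsmul_eq_mul]
  have h2 : (L.filter (fun h => t ∈ ω h)).card ≤ dg t := by
    refine le_trans ?_ (hω1 t)
    rw [← Set.ncard_coe_finset]
    apply Set.ncard_le_ncard _ (Set.toFinite _)
    intro h hh
    have := Finset.mem_filter.1 (Finset.mem_coe.1 hh)
    exact ⟨hL h this.1, this.2⟩
  have h3 : ((L.filter (fun h => t ∈ ω h)).card : ℝ) ≤ dg t := by exact_mod_cast h2
  calc ((L.filter (fun h => t ∈ ω h)).card : ℝ) * c ≤ dg t * c :=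
        mul_le_mul_of_nonneg_right h3 hc0
    _ = ((K1 : ℝ) + 1) ^ 2 * ((dg t : ℝ) * (1 / ((d z t : ℝ) + r) ^ 2)) := by
        rw [hc]
        ring

/-- the potential sum along the geodesic of a short piece -/
theorem geo_short (hsymm : ∀ x y, d x y = d y x) (htri : ∀ x y z, d x z ≤ d x y + d y z)
    {a b : N} (γ : Geod d dg a b) (z : N) (r C K1 : ℕ) (hr : 1 ≤ r)
    (hC : ∀ t, dg t ≤ C * r) (hab : d a b ≤ K1 * r) :
    ∑ i ∈ Finset.range (γ.n + 1), (dg (γ.g i) : ℝ) * (1 / ((d z (γ.g i) : ℝ) + r) ^ 2) ≤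
      ((K1 : ℝ) + 1) ^ 2 * ((K1 + C) * r) * (1 / ((d z a : ℝ) + r) ^ 2) := by
  have hr' : (1 : ℝ) ≤ r := by exact_mod_cast hr
  set c : ℝ := ((K1 : ℝ) + 1) ^ 2 * (1 / ((d z a : ℝ) + r) ^ 2) with hc
  have hc0 : 0 ≤ c := by positivity
  have h1 : ∀ i ∈ Finset.range (γ.n + 1),
      (dg (γ.g i) : ℝ) * (1 / ((d z (γ.g i) : ℝ) + r) ^ 2) ≤ (dg (γ.g i) : ℝ) * c := by
    intro i hi
    have hin : i ≤ γ.n := by
      have := Finset.mem_range.1 hi
      omega
    apply mul_le_mul_of_nonneg_left _ (by positivity)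
    apply pot_comp htri z a (γ.g i) r K1 hr
    rw [hsymm]
    have h2 := γ.dist 0 i (Nat.zero_le _) hin
    rw [γ.g_zero] at h2
    rw [h2]
    have h3 := γ.len_eq
    have h4 := γ.mono i γ.n hin le_rfl
    omega
  refine (Finset.sum_le_sum h1).trans ?_
  rw [← Finset.sum_mul, ← Nat.cast_sum]
  have h5 : ∑ i ∈ Finset.range (γ.n + 1), dg (γ.g i) ≤ (K1 + C) * r := by
    have := γ.sum_dg
    have h6 := hC a
    nlinarith
  have h7 : ((∑ i ∈ Finset.range (γ.n + 1), dg (γ.g i) : ℕ) : ℝ) ≤ (K1 + C) * r := by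
    exact_mod_cast h5
  calc ((∑ i ∈ Finset.range (γ.n + 1), dg (γ.g i) : ℕ) : ℝ) * c ≤ ((K1 + C) * r) * c :=
        mul_le_mul_of_nonneg_right h7 hc0
    _ = ((K1 : ℝ) + 1) ^ 2 * ((K1 + C) * r) * (1 / ((d z a : ℝ) + r) ^ 2) := by
        rw [hc]
        ring

/-- the potential bound: if every piece of `S` outside `S0` is overloaded, then the total
potential at every node is small -/
theorem potential (hsymm : ∀ x y, d x y = d y x) (htri : ∀ x y z, d x z ≤ d x y + d y z)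
    (ω : Q → Set N) (S0 S : Finset Q) (hS : S0 ⊆ S) (r C K1 : ℕ) (hr : 1 ≤ r)
    (γ : ∀ q, Geod d dg (p q) (p' q))
    (hC : ∀ t, dg t ≤ C * r) (hS0 : S0.card ≤ C * r)
    (hp : ∀ q ∉ S0, d (p q) (p' q) ≤ K1 * r)
    (hω1 : ∀ t, {q | q ∉ S0 ∧ t ∈ ω q}.ncard ≤ dg t)
    (hω2 : ∀ q ∉ S0, ∀ t ∈ ω q, d t (p q) ≤ K1 * r)
    (hover : ∀ h ∈ S, h ∉ S0 →
      ((K1 + 1) ^ 4 * (K1 + C) + 1) * r < ∑ q ∈ S, (γ q).hits (ω h)) (z : N) :
    (r : ℝ) * ∑ h ∈ S \ S0, (1 / ((d z (p h) : ℝ) + r) ^ 2) ≤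
      ((K1 : ℝ) + 1) ^ 2 * (4 + C) * C := by
  have hr' : (1 : ℝ) ≤ r := by exact_mod_cast hr
  have hr0 : (0 : ℝ) < r := by linarith
  set X : ℝ := ∑ h ∈ S \ S0, (1 / ((d z (p h) : ℝ) + r) ^ 2) with hX
  have hX0 : 0 ≤ X := Finset.sum_nonneg (fun h _ => by positivity)
  have hL : ∀ h ∈ S \ S0, h ∉ S0 := fun h hh => (Finset.mem_sdiff.1 hh).2
  -- lower bound
  have low : (((K1 : ℝ) + 1) ^ 4 * (K1 + C) + 1) * r * X ≤
      ∑ h ∈ S \ S0, ∑ q ∈ S, ((γ q).hits (ω h) : ℝ) * (1 / ((d z (p h) : ℝ) + r) ^ 2) := by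
    rw [hX, Finset.mul_sum]
    apply Finset.sum_le_sum
    intro h hh
    rw [← Finset.sum_mul]
    apply mul_le_mul_of_nonneg_right _ (by positivity)
    have h1 := (hover h (Finset.mem_sdiff.1 hh).1 (Finset.mem_sdiff.1 hh).2).le
    exact_mod_cast h1
  rw [Finset.sum_comm, ← Finset.sum_sdiff hS] at low
  -- upper bound for the pieces of `S0`
  have up0 : ∑ q ∈ S0, ∑ h ∈ S \ S0,
      ((γ q).hits (ω h) : ℝ) * (1 / ((d z (p h) : ℝ) + r) ^ 2) ≤
      ((K1 : ℝ) + 1) ^ 2 * (4 + C) * C := by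
    have h1 : ∀ q ∈ S0, ∑ h ∈ S \ S0,
        ((γ q).hits (ω h) : ℝ) * (1 / ((d z (p h) : ℝ) + r) ^ 2) ≤
        ((K1 : ℝ) + 1) ^ 2 * ((4 + C) / (r : ℝ)) := by
      intro q _
      refine (visits_le htri hsymm ω S0 (S \ S0) hL r K1 hr hω1 hω2 z (γ q)).trans ?_
      apply mul_le_mul_of_nonneg_left _ (by positivity)
      exact geo_sum hsymm htri (γ q) z r C hr hC
    refine (Finset.sum_le_sum h1).trans ?_
    rw [Finset.sum_const, nsmul_eq_mul]
    have h2 : (S0.card : ℝ) ≤ C * r := by exact_mod_cast hS0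
    calc (S0.card : ℝ) * (((K1 : ℝ) + 1) ^ 2 * ((4 + C) / (r : ℝ))) ≤
        (C * r) * (((K1 : ℝ) + 1) ^ 2 * ((4 + C) / (r : ℝ))) :=
          mul_le_mul_of_nonneg_right h2 (by positivity)
      _ = ((K1 : ℝ) + 1) ^ 2 * (4 + C) * C := by
          field_simp
  -- upper bound for the other pieces
  have upL : ∑ q ∈ S \ S0, ∑ h ∈ S \ S0,
      ((γ q).hits (ω h) : ℝ) * (1 / ((d z (p h) : ℝ) + r) ^ 2) ≤
      ((K1 : ℝ) + 1) ^ 4 * (K1 + C) * r * X := by
    rw [hX, Finset.mul_sum]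
    apply Finset.sum_le_sum
    intro q hq
    refine (visits_le htri hsymm ω S0 (S \ S0) hL r K1 hr hω1 hω2 z (γ q)).trans ?_
    have h1 := geo_short hsymm htri (γ q) z r C K1 hr hC (hp q (hL q hq))
    calc ((K1 : ℝ) + 1) ^ 2 * ∑ i ∈ Finset.range ((γ q).n + 1),
          (dg ((γ q).g i) : ℝ) * (1 / ((d z ((γ q).g i) : ℝ) + r) ^ 2) ≤
        ((K1 : ℝ) + 1) ^ 2 * (((K1 : ℝ) + 1) ^ 2 * ((K1 + C) * r) *
          (1 / ((d z (p q) : ℝ) + r) ^ 2)) :=
          mul_le_mul_of_nonneg_left h1 (by positivity)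
      _ = ((K1 : ℝ) + 1) ^ 4 * (K1 + C) * r * (1 / ((d z (p q) : ℝ) + r) ^ 2) := by ring
  have e : (((K1 : ℝ) + 1) ^ 4 * (K1 + C) + 1) * r * X =
      ((K1 : ℝ) + 1) ^ 4 * (K1 + C) * r * X + r * X := by ring
  rw [e] at low
  linarith

/-- few pieces of `S` outside `S0` start near a given node -/
theorem near (hsymm : ∀ x y, d x y = d y x) (htri : ∀ x y z, d x z ≤ d x y + d y z)
    (ω : Q → Set N) (S0 S : Finset Q) (hS : S0 ⊆ S) (r C K1 : ℕ) (hr : 1 ≤ r)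
    (γ : ∀ q, Geod d dg (p q) (p' q))
    (hC : ∀ t, dg t ≤ C * r) (hS0 : S0.card ≤ C * r)
    (hp : ∀ q ∉ S0, d (p q) (p' q) ≤ K1 * r)
    (hω1 : ∀ t, {q | q ∉ S0 ∧ t ∈ ω q}.ncard ≤ dg t)
    (hω2 : ∀ q ∉ S0, ∀ t ∈ ω q, d t (p q) ≤ K1 * r)
    (hover : ∀ h ∈ S, h ∉ S0 →
      ((K1 + 1) ^ 4 * (K1 + C) + 1) * r < ∑ q ∈ S, (γ q).hits (ω h)) (z : N) :
    ((S \ S0).filter (fun h => d z (p h) ≤ (K1 + 1) * r)).card ≤
      (K1 + 2) ^ 2 * ((K1 + 1) ^ 2 * (4 + C) * C) * r := by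
  have hr' : (1 : ℝ) ≤ r := by exact_mod_cast hr
  have hr0 : (0 : ℝ) < r := by linarith
  have hpot := potential hsymm htri ω S0 S hS r C K1 hr γ hC hS0 hp hω1 hω2 hover z
  set F := (S \ S0).filter (fun h => d z (p h) ≤ (K1 + 1) * r) with hF
  have h1 : ∀ h ∈ F, 1 / (((K1 : ℝ) + 2) * r) ^ 2 ≤ 1 / ((d z (p h) : ℝ) + r) ^ 2 := by
    intro h hh
    have h2 := (Finset.mem_filter.1 hh).2
    have h3 : (d z (p h) : ℝ) ≤ (K1 + 1) * r := by exact_mod_cast h2
    apply one_div_le_one_div_of_le (by positivity)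
    apply pow_le_pow_left₀ (by positivity)
    nlinarith
  have h4 : (F.card : ℝ) * (1 / (((K1 : ℝ) + 2) * r) ^ 2) ≤
      ∑ h ∈ S \ S0, (1 / ((d z (p h) : ℝ) + r) ^ 2) := by
    have h5 := Finset.sum_le_sum h1
    rw [Finset.sum_const, nsmul_eq_mul] at h5
    refine h5.trans ?_
    apply Finset.sum_le_sum_of_subset_of_nonneg (Finset.filter_subset _ _)
    intro h _ _
    positivity
  have h6 : (r : ℝ) * ((F.card : ℝ) * (1 / (((K1 : ℝ) + 2) * r) ^ 2)) ≤
      (K1 + 1) ^ 2 * (4 + C) * C :=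
    (mul_le_mul_of_nonneg_left h4 hr0.le).trans hpot
  have h7 : (F.card : ℝ) ≤ (K1 + 2) ^ 2 * ((K1 + 1) ^ 2 * (4 + C) * C) * r := by
    have e : (F.card : ℝ) = (((K1 : ℝ) + 2) ^ 2 * r) *
        ((r : ℝ) * ((F.card : ℝ) * (1 / (((K1 : ℝ) + 2) * r) ^ 2))) := by
      field_simp
    rw [e]
    calc (((K1 : ℝ) + 2) ^ 2 * r) * ((r : ℝ) * ((F.card : ℝ) * (1 / (((K1 : ℝ) + 2) * r) ^ 2))) ≤
        (((K1 : ℝ) + 2) ^ 2 * r) * ((K1 + 1) ^ 2 * (4 + C) * C) :=
          mul_le_mul_of_nonneg_left h6 (by positivity)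
      _ = (K1 + 2) ^ 2 * ((K1 + 1) ^ 2 * (4 + C) * C) * r := by ring
  exact_mod_cast h7

open Classical in
/-- the closure lemma for pieces -/
theorem closure_aux (C K1 : ℕ) (hsymm : ∀ x y, d x y = d y x)
    (htri : ∀ x y z, d x z ≤ d x y + d y z)
    (r : ℕ) (hr : 1 ≤ r) (ω : Q → Set N) (S0 : Finset Q)
    (γ : ∀ q, Geod d dg (p q) (p' q))
    (hC : ∀ t, dg t ≤ C * r) (hS0 : S0.card ≤ C * r)
    (hp : ∀ q ∉ S0, d (p q) (p' q) ≤ K1 * r)
    (hω1 : ∀ t, {q | q ∉ S0 ∧ t ∈ ω q}.ncard ≤ dg t)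
    (hω2 : ∀ q ∉ S0, ∀ t ∈ ω q, d t (p q) ≤ K1 * r) :
    ∃ S : Finset Q, S0 ⊆ S ∧
      (∀ h ∉ S, ∑ q ∈ S, (γ q).hits (ω h) ≤ ((K1 + 1) ^ 4 * (K1 + C) + 1) * r) ∧
      ∀ γ' : ∀ q, Geod d dg (p q) (p' q),
        (∀ z, {q | q ∈ S ∧ z ∈ (γ' q).nodes}.ncard ≤
          C * r + (K1 + 2) ^ 2 * ((K1 + 1) ^ 2 * (4 + C) * C) * r) ∧
        (∀ q ∈ S, {q' | q' ∈ S ∧ ((γ' q').nodes ∩ (γ' q).nodes).Nonempty}.ncard ≤
          C * r + (K1 + 2) ^ 2 * ((K1 + 1) ^ 2 * (4 + C) * C) * (d (p q) (p' q) + r)) ∧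
        (∀ q ∈ S, ∑ h ∈ Sᶜ, (γ' q).hits (ω h) ≤ d (p q) (p' q) + C * r) := by
  obtain ⟨S, hS, hout, hover⟩ := exists_min (fun S h => ∑ q ∈ S, (γ q).hits (ω h))
    (fun S T h hST => Finset.sum_le_sum_of_subset hST) S0 (((K1 + 1) ^ 4 * (K1 + C) + 1) * r)
  have hnear := near hsymm htri ω S0 S hS r C K1 hr γ hC hS0 hp hω1 hω2 hover
  refine ⟨S, hS, hout, ?_⟩
  intro γ'
  -- a node of the geodesic of a piece outside `S0` is close to the start of the piece
  have hclose : ∀ q, q ∉ S0 → ∀ z ∈ (γ' q).nodes, d z (p q) ≤ K1 * r := by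
    rintro q hq z ⟨i, hi, rfl⟩
    rw [hsymm]
    have h2 := (γ' q).dist 0 i (Nat.zero_le _) hi
    rw [(γ' q).g_zero] at h2
    rw [h2]
    have h3 := (γ' q).len_eq
    have h4 := (γ' q).mono i (γ' q).n hi le_rfl
    have h5 := hp q hq
    omega
  refine ⟨?_, ?_, ?_⟩
  · intro z
    have hsub : {q | q ∈ S ∧ z ∈ (γ' q).nodes} ⊆
        ((S0 ∪ (S \ S0).filter (fun h => d z (p h) ≤ (K1 + 1) * r) : Finset Q) : Set Q) := by
      rintro q ⟨hq, hz⟩
      rw [Finset.mem_coe, Finset.mem_union]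
      by_cases h0 : q ∈ S0
      · exact Or.inl h0
      · right
        rw [Finset.mem_filter]
        refine ⟨Finset.mem_sdiff.2 ⟨hq, h0⟩, ?_⟩
        have := hclose q h0 z hz
        nlinarith
    refine (Set.ncard_le_ncard hsub (Set.toFinite _)).trans ?_
    rw [Set.ncard_coe_finset]
    refine (Finset.card_union_le _ _).trans ?_
    exact Nat.add_le_add hS0 (hnear z)
  · intro q hq
    set l := d (p q) (p' q) with hl
    -- window nodes
    let zz : ℕ → N := fun j => if h : ∃ i, i ≤ (γ' q).n ∧ ((γ' q).s i - (γ' q).s 0) / r = j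
      then (γ' q).g h.choose else p q
    have hsub : {q' | q' ∈ S ∧ ((γ' q').nodes ∩ (γ' q).nodes).Nonempty} ⊆
        ((S0 ∪ (Finset.range (l / r + 1)).biUnion (fun j => (S \ S0).filter
          (fun h => d (zz j) (p h) ≤ (K1 + 1) * r)) : Finset Q) : Set Q) := by
      rintro q' ⟨hq', t, ht', i, hi, hti⟩
      rw [Finset.mem_coe, Finset.mem_union]
      by_cases h0 : q' ∈ S0
      · exact Or.inl h0
      · right
        rw [Finset.mem_biUnion]
        refine ⟨((γ' q).s i - (γ' q).s 0) / r, ?_, ?_⟩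
        · rw [Finset.mem_range, Nat.lt_succ_iff]
          apply Nat.div_le_div_right
          have h3 := (γ' q).len_eq
          have h4 := (γ' q).mono i (γ' q).n hi le_rfl
          omega
        · rw [Finset.mem_filter]
          refine ⟨Finset.mem_sdiff.2 ⟨hq', h0⟩, ?_⟩
          have hex : ∃ i', i' ≤ (γ' q).n ∧
              ((γ' q).s i' - (γ' q).s 0) / r = ((γ' q).s i - (γ' q).s 0) / r := ⟨i, hi, rfl⟩
          have hz : zz (((γ' q).s i - (γ' q).s 0) / r) = (γ' q).g hex.choose := dif_pos hex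
          rw [hz]
          obtain ⟨hc1, hc2⟩ := hex.choose_spec
          set i' := hex.choose with hi'
          have hd : d ((γ' q).g i') ((γ' q).g i) ≤ r := by
            have m1 := Nat.div_add_mod ((γ' q).s i' - (γ' q).s 0) r
            have m2 := Nat.div_add_mod ((γ' q).s i - (γ' q).s 0) r
            have m3 := Nat.mod_lt ((γ' q).s i' - (γ' q).s 0) (show 0 < r by omega)
            have m4 := Nat.mod_lt ((γ' q).s i - (γ' q).s 0) (show 0 < r by omega)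
            rw [hc2] at m1
            have m5 := (γ' q).mono 0 i' (Nat.zero_le _) hc1
            have m6 := (γ' q).mono 0 i (Nat.zero_le _) hi
            rcases le_total i' i with hle | hle
            · rw [(γ' q).dist i' i hle hi]
              omega
            · rw [hsymm, (γ' q).dist i i' hle hc1]
              omega
          have h5 := htri ((γ' q).g i') ((γ' q).g i) (p q')
          have h6 := hclose q' h0 t ht'
          rw [hti] at h6
          nlinarith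
    refine (Set.ncard_le_ncard hsub (Set.toFinite _)).trans ?_
    rw [Set.ncard_coe_finset]
    refine (Finset.card_union_le _ _).trans ?_
    apply Nat.add_le_add hS0
    refine Finset.card_biUnion_le.trans ?_
    refine (Finset.sum_le_sum (fun j _ => hnear (zz j))).trans ?_
    rw [Finset.sum_const, Finset.card_range, smul_eq_mul]
    have h7 : (l / r + 1) * r ≤ l + r := by
      have := Nat.div_mul_le_self l r
      nlinarith
    calc (l / r + 1) * ((K1 + 2) ^ 2 * ((K1 + 1) ^ 2 * (4 + C) * C) * r) =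
        ((K1 + 2) ^ 2 * ((K1 + 1) ^ 2 * (4 + C) * C)) * ((l / r + 1) * r) := by ring
      _ ≤ ((K1 + 2) ^ 2 * ((K1 + 1) ^ 2 * (4 + C) * C)) * (l + r) :=
        Nat.mul_le_mul_left _ h7
  · intro q hq
    have e1 : ∀ h ∈ Sᶜ, (γ' q).hits (ω h) =
        ∑ i ∈ Finset.range ((γ' q).n + 1), (if (γ' q).g i ∈ ω h then 1 else 0) :=
      fun h _ => (γ' q).hits_eq (ω h)
    rw [Finset.sum_congr rfl e1, Finset.sum_comm]
    have h1 : ∀ i ∈ Finset.range ((γ' q).n + 1),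
        ∑ h ∈ Sᶜ, (if (γ' q).g i ∈ ω h then 1 else 0) ≤ dg ((γ' q).g i) := by
      intro i _
      rw [← Finset.card_filter]
      refine le_trans ?_ (hω1 _)
      rw [← Set.ncard_coe_finset]
      apply Set.ncard_le_ncard _ (Set.toFinite _)
      intro h hh
      have h2 := Finset.mem_filter.1 (Finset.mem_coe.1 hh)
      refine ⟨?_, h2.2⟩
      intro h0
      exact (Finset.mem_compl.1 h2.1) (hS h0)
    refine (Finset.sum_le_sum h1).trans ?_
    have h3 := (γ' q).sum_dg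
    have h4 := hC (p q)
    omega

end

/-- **Closure lemma (pieces).** -/
theorem closure (C K1 : ℕ) : ∃ K : ℕ, ∀ (N Q : Type) [Fintype Q] [DecidableEq Q]
    (d : N → N → ℕ) (dg : N → ℕ) (r : ℕ) (p p' : Q → N) (ω : Q → Set N) (S0 : Finset Q)
    (γ : ∀ q, Geod d dg (p q) (p' q)),
    (∀ x, d x x = 0) → (∀ x y, d x y = d y x) → (∀ x y z, d x z ≤ d x y + d y z) →
    1 ≤ r → (∀ t, dg t ≤ C * r) → S0.card ≤ C * r →
    (∀ q ∉ S0, d (p q) (p' q) ≤ K1 * r) →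
    (∀ t, {q | q ∉ S0 ∧ t ∈ ω q}.ncard ≤ dg t) →
    (∀ q ∉ S0, ∀ t ∈ ω q, d t (p q) ≤ K1 * r) →
    ∃ S : Finset Q, S0 ⊆ S ∧
      (∀ h ∉ S, ∑ q ∈ S, (γ q).hits (ω h) ≤ K * r) ∧
      ∀ γ' : ∀ q, Geod d dg (p q) (p' q),
        (∀ z, {q | q ∈ S ∧ z ∈ (γ' q).nodes}.ncard ≤ K * r) ∧
        (∀ q ∈ S, {q' | q' ∈ S ∧ ((γ' q').nodes ∩ (γ' q).nodes).Nonempty}.ncard ≤
          K * (d (p q) (p' q) + r)) ∧
        (∀ q ∈ S, ∑ h ∈ Sᶜ, (γ' q).hits (ω h) ≤ d (p q) (p' q) + C * r) := by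
  refine ⟨((K1 + 1) ^ 4 * (K1 + C) + 1) +
    (C + (K1 + 2) ^ 2 * ((K1 + 1) ^ 2 * (4 + C) * C)), ?_⟩
  intro N Q _ _ d dg r p p' ω S0 γ _ hsymm htri hr hC hS0 hp hω1 hω2
  obtain ⟨S, hS, hout, hrest⟩ := closure_aux C K1 hsymm htri r hr ω S0 γ hC hS0 hp hω1 hω2
  set B := (K1 + 1) ^ 4 * (K1 + C) + 1 with hB
  set E := (K1 + 2) ^ 2 * ((K1 + 1) ^ 2 * (4 + C) * C) with hE
  refine ⟨S, hS, fun h hh => (hout h hh).trans (Nat.mul_le_mul_right _ (by omega)), ?_⟩
  intro γ'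
  obtain ⟨h1, h2, h3⟩ := hrest γ'
  refine ⟨?_, ?_, h3⟩
  · intro z
    refine (h1 z).trans ?_
    rw [← Nat.add_mul]
    exact Nat.mul_le_mul_right _ (by omega)
  · intro q hq
    refine (h2 q hq).trans ?_
    set l := d (p q) (p' q)
    have e1 : C * r ≤ C * (l + r) := Nat.mul_le_mul_left _ (by omega)
    calc C * r + E * (l + r) ≤ C * (l + r) + E * (l + r) := Nat.add_le_add_right e1 _
      _ = (C + E) * (l + r) := by ring
      _ ≤ (B + (C + E)) * (l + r) := Nat.mul_le_mul_right _ (by omega)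

end Pool.Agent.Helper93.UP
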