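import Pool.Agent.Helper93.UP.CL
import Pool.Agent.Helper83.LN.OldRoute
import Pool.Agent.Helper83.OP.NodePath

/-!
# UP/LDa: the cost metric of the node graph, geodesic routes, the nodes of the old curves
-/

open Set
open Pool.Agent.Helper83.OP Pool.Agent.Helper83.LN

namespace Pool.Agent.Helper93.UP

section metric

variable {J I : Type} {src tgt : I → J}

/-- `j'` can be reached from `j` -/
def Rch (src tgt : I → J) (j j' : J) : Prop := ∃ l, Wk src tgt j j' l

theorem rch_self (j : J) : Rch src tgt j j := ⟨[], rfl⟩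

theorem rch_symm {j j' : J} (h : Rch src tgt j j') : Rch src tgt j' j := by
  obtain ⟨l, hl⟩ := h
  exact ⟨_, wk_reverse hl⟩

theorem rch_trans {j j' j'' : J} (h : Rch src tgt j j') (h' : Rch src tgt j' j'') :
    Rch src tgt j j'' := by
  obtain ⟨l, hl⟩ := h
  obtain ⟨l', hl'⟩ := h'
  exact ⟨_, wk_append hl hl'⟩

open Classical in
/-- the distance, extended by the constant `B` -/
noncomputable def xD (src tgt : I → J) (c : I → ℕ) (B : ℕ) (j j' : J) : ℕ :=
  if Rch src tgt j j' then nD src tgt c j j' else B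

theorem xD_self (c : I → ℕ) (B : ℕ) (j : J) : xD src tgt c B j j = 0 := by
  rw [xD, if_pos (rch_self j), nD_self]

theorem xD_symm (c : I → ℕ) (B : ℕ) (j j' : J) :
    xD src tgt c B j j' = xD src tgt c B j' j := by
  by_cases h : Rch src tgt j j'
  · rw [xD, if_pos h, xD, if_pos (rch_symm h), nD_symm]
  · have h' : ¬ Rch src tgt j' j := fun h' => h (rch_symm h')
    rw [xD, if_neg h, xD, if_neg h']

theorem xD_tri (c : I → ℕ) (B : ℕ) (hB : ∀ j j', nD src tgt c j j' ≤ B) (x y z : J) :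
    xD src tgt c B x z ≤ xD src tgt c B x y + xD src tgt c B y z := by
  by_cases h1 : Rch src tgt x y
  · by_cases h2 : Rch src tgt y z
    · rw [xD, if_pos (rch_trans h1 h2), xD, if_pos h1, xD, if_pos h2]
      exact nD_tri c h1 h2
    · have h3 : xD src tgt c B y z = B := if_neg h2
      have h4 : xD src tgt c B x z ≤ B := by
        rw [xD]
        split_ifs
        · exact hB _ _
        · exact le_rfl
      omega
  · have h3 : xD src tgt c B x y = B := if_neg h1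
    have h4 : xD src tgt c B x z ≤ B := by
      rw [xD]
      split_ifs
      · exact hB _ _
      · exact le_rfl
    omega

theorem xD_le (c : I → ℕ) (B : ℕ) {j j' : J} {l : List (I × Bool)} (h : Wk src tgt j j' l) :
    xD src tgt c B j j' ≤ wcost c l := by
  rw [xD, if_pos (show Rch src tgt j j' from ⟨l, h⟩)]
  exact nD_le c h

theorem exists_B [Finite J] (c : I → ℕ) : ∃ B : ℕ, ∀ j j', nD src tgt c j j' ≤ B := by
  obtain ⟨B, hB⟩ := (Set.finite_range (fun p : J × J => nD src tgt c p.1 p.2)).bddAbove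
  exact ⟨B, fun j j' => hB ⟨(j, j'), rfl⟩⟩

/-- a route of minimal cost as a geodesic of the extended metric -/
noncomputable def geodOf {c : I → ℕ} (B : ℕ) (dgn : J → ℕ)
    (hc : ∀ i e, dgn (nend src tgt i e) ≤ c i) (R : Rt J I src tgt) (h : IsGeo c R) {a b : J}
    (hR : R.From a b) : Geod (xD src tgt c B) dgn a b where
  n := R.len
  g := R.nd
  s := fun t => ∑ k ∈ Finset.range t, c (R.ar k)
  g_zero := hR.1
  g_last := hR.2
  mono := fun i j hij _ => Finset.sum_le_sum_of_subset (Finset.range_subset_range.2 hij)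
  dist := by
    intro i j hij hj
    obtain ⟨l, hl, _⟩ := rt_wk R c hij hj
    rw [xD, if_pos (show Rch src tgt (R.nd i) (R.nd j) from ⟨l, hl⟩), nD_geo h hij hj]
    have := Finset.sum_range_add_sum_Ico (fun k => c (R.ar k)) hij
    omega
  step_left := by
    intro i hi
    have h1 := hc (R.ar i) (R.dir i)
    rw [R.fst i hi] at h1
    have h2 : ∑ k ∈ Finset.range (i + 1), c (R.ar k) =
      ∑ k ∈ Finset.range i, c (R.ar k) + c (R.ar i) := Finset.sum_range_succ _ _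
    show dgn (R.nd i) ≤ ∑ k ∈ Finset.range (i + 1), c (R.ar k) - ∑ k ∈ Finset.range i, c (R.ar k)
    omega
  step_right := by
    intro i hi
    have h1 := hc (R.ar i) (!R.dir i)
    rw [R.snd i hi] at h1
    have h2 : ∑ k ∈ Finset.range (i + 1), c (R.ar k) =
      ∑ k ∈ Finset.range i, c (R.ar k) + c (R.ar i) := Finset.sum_range_succ _ _
    show dgn (R.nd (i + 1)) ≤
      ∑ k ∈ Finset.range (i + 1), c (R.ar k) - ∑ k ∈ Finset.range i, c (R.ar k)
    omega

theorem geodOf_n {c : I → ℕ} (B : ℕ) (dgn : J → ℕ)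
    (hc : ∀ i e, dgn (nend src tgt i e) ≤ c i) (R : Rt J I src tgt) (h : IsGeo c R) {a b : J}
    (hR : R.From a b) : (geodOf B dgn hc R h hR).n = R.len := rfl

theorem geodOf_g {c : I → ℕ} (B : ℕ) (dgn : J → ℕ)
    (hc : ∀ i e, dgn (nend src tgt i e) ≤ c i) (R : Rt J I src tgt) (h : IsGeo c R) {a b : J}
    (hR : R.From a b) : (geodOf B dgn hc R h hR).g = R.nd := rfl

end metric

/-! ## weights and costs of the node graph -/

section weights

variable {V : Type} {H : SimpleGraph V}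

/-- the weight of a node: the number of arcs at the node -/
noncomputable def wt (Z : Plz H) (j : Z.J) : ℕ := {i | Z.src i = j ∨ Z.tgt i = j}.ncard

/-- the cost of an arc -/
noncomputable def cst (Z : Plz H) (i : H.edgeSet × Bool) : ℕ := wt Z (Z.src i) + wt Z (Z.tgt i)

theorem wt_le_cst (Z : Plz H) (i : H.edgeSet × Bool) (e : Bool) :
    wt Z (nend Z.src Z.tgt i e) ≤ cst Z i := by
  cases e
  · exact Nat.le_add_right _ _
  · exact Nat.le_add_left _ _

theorem wt_vn [Finite V] (Z : Plz H) (v : V) : wt Z (Z.vn v) ≤ deg H v := (node_deg H Z).1 v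

theorem wt_bn [Finite V] (Z : Plz H) (f : H.edgeSet) : wt Z (Z.bn f) ≤ 4 := (node_deg H Z).2 f

theorem src_cases (Z : Plz H) (i : H.edgeSet × Bool) :
    (∃ v, Z.src i = Z.vn v) ∨ ∃ f, Z.src i = Z.bn f := by
  obtain ⟨f, b⟩ := i
  cases b
  · exact Or.inl ⟨Z.a f, rfl⟩
  · exact Or.inr ⟨f, rfl⟩

theorem tgt_cases (Z : Plz H) (i : H.edgeSet × Bool) :
    (∃ v, Z.tgt i = Z.vn v) ∨ ∃ f, Z.tgt i = Z.bn f := by
  obtain ⟨f, b⟩ := i
  cases b
  · exact Or.inr ⟨f, rfl⟩
  · exact Or.inl ⟨Z.b f, rfl⟩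

theorem wt_le [Finite V] (Z : Plz H) (D : ℕ) (hD : ∀ v, deg H v ≤ D) (j : Z.J) :
    wt Z j ≤ D + 4 := by
  by_cases h : ({i | Z.src i = j ∨ Z.tgt i = j} : Set (H.edgeSet × Bool)).Nonempty
  · obtain ⟨i, hi⟩ := h
    have h1 : (∃ v, j = Z.vn v) ∨ ∃ f, j = Z.bn f := by
      rcases hi with hi | hi
      · rcases src_cases Z i with ⟨v, hv⟩ | ⟨f, hf⟩
        · exact Or.inl ⟨v, hi.symm.trans hv⟩
        · exact Or.inr ⟨f, hi.symm.trans hf⟩
      · rcases tgt_cases Z i with ⟨v, hv⟩ | ⟨f, hf⟩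
        · exact Or.inl ⟨v, hi.symm.trans hv⟩
        · exact Or.inr ⟨f, hi.symm.trans hf⟩
    rcases h1 with ⟨v, rfl⟩ | ⟨f, rfl⟩
    · exact (wt_vn Z v).trans ((hD v).trans (Nat.le_add_right _ _))
    · exact (wt_bn Z f).trans (Nat.le_add_left _ _)
  · rw [Set.not_nonempty_iff_eq_empty] at h
    rw [wt, h, Set.ncard_empty]
    exact Nat.zero_le _

/-- the half edge of `f` at its end `u` -/
theorem half (Z : Plz H) (f : H.edgeSet) {u : V} (hu : u ∈ (f : Sym2 V)) :
    ∃ (i : H.edgeSet × Bool) (e : Bool), i.1 = f ∧ nend Z.src Z.tgt i e = Z.vn u ∧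
      nend Z.src Z.tgt i (!e) = Z.bn f ∧ cst Z i = wt Z (Z.vn u) + wt Z (Z.bn f) := by
  rw [Z.ends f, Sym2.mem_iff] at hu
  rcases hu with h | h
  · exact ⟨(f, false), false, rfl, congrArg Z.vn h.symm, rfl, by
      rw [h]
      rfl⟩
  · exact ⟨(f, true), true, rfl, congrArg Z.vn h.symm, rfl, by
      rw [h, Nat.add_comm]
      rfl⟩

theorem wk_vb [Finite V] (Z : Plz H) (f : H.edgeSet) {u : V} (hu : u ∈ (f : Sym2 V)) :
    ∃ l, Wk Z.src Z.tgt (Z.vn u) (Z.bn f) l ∧ wcost (cst Z) l ≤ wt Z (Z.vn u) + 4 := by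
  obtain ⟨i, e, _, h2, h3, h4⟩ := half Z f hu
  refine ⟨[(i, e)], ⟨h2, h3⟩, ?_⟩
  have h5 : wcost (cst Z) [(i, e)] = cst Z i := by simp [wcost]
  have h6 := wt_bn Z f
  omega

theorem wk_bv [Finite V] (Z : Plz H) (f : H.edgeSet) {u : V} (hu : u ∈ (f : Sym2 V)) :
    ∃ l, Wk Z.src Z.tgt (Z.bn f) (Z.vn u) l ∧ wcost (cst Z) l ≤ wt Z (Z.vn u) + 4 := by
  obtain ⟨i, e, _, h2, h3, h4⟩ := half Z f hu
  refine ⟨[(i, !e)], ⟨h3, ?_⟩, ?_⟩
  · show nend Z.src Z.tgt i (!!e) = Z.vn u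
    rw [Bool.not_not]
    exact h2
  · have h5 : wcost (cst Z) [(i, !e)] = cst Z i := by simp [wcost]
    have h6 := wt_bn Z f
    omega

theorem wk_adj [Finite V] (Z : Plz H) {u v : V} (h : H.Adj u v) :
    ∃ l, Wk Z.src Z.tgt (Z.vn u) (Z.vn v) l ∧
      wcost (cst Z) l ≤ wt Z (Z.vn u) + wt Z (Z.vn v) + 8 := by
  obtain ⟨l, hl, hc⟩ := wk_vb Z (⟨s(u, v), h⟩ : H.edgeSet) (Sym2.mem_mk_left u v)
  obtain ⟨l', hl', hc'⟩ := wk_bv Z (⟨s(u, v), h⟩ : H.edgeSet) (Sym2.mem_mk_right u v)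
  refine ⟨l ++ l', wk_append hl hl', ?_⟩
  rw [wcost_append]
  omega

/-- a walk of `H` as a walk of half edges, with its cost -/
theorem wk_of_walk [Finite V] (Z : Plz H) {u v : V} (p : H.Walk u v) :
    ∃ l, Wk Z.src Z.tgt (Z.vn u) (Z.vn v) l ∧
      wcost (cst Z) l + deg H u + deg H v ≤ 2 * (p.support.map (deg H)).sum + 8 * p.length := by
  induction p with
  | @nil u =>
    refine ⟨[], rfl, ?_⟩
    simp [wcost]
    omega
  | @cons u w v h p ih =>
    obtain ⟨l, hl, hc⟩ := ih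
    obtain ⟨l', hl', hc'⟩ := wk_adj Z h
    refine ⟨l' ++ l, wk_append hl' hl, ?_⟩
    rw [wcost_append, SimpleGraph.Walk.support_cons, List.map_cons, List.sum_cons,
      SimpleGraph.Walk.length_cons]
    have h1 := wt_vn Z u
    have h2 := wt_vn Z w
    omega

/-- walks along the vertices `x 0, ..., x n` -/
theorem wk_fun [Finite V] (Z : Plz H) (x : ℕ → V) (n : ℕ)
    (h : ∀ t < n, H.Adj (x t) (x (t + 1))) :
    ∃ l, Wk Z.src Z.tgt (Z.vn (x 0)) (Z.vn (x n)) l ∧
      wcost (cst Z) l + wt Z (Z.vn (x n)) ≤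
        2 * (∑ k ∈ Finset.range (n + 1), wt Z (Z.vn (x k))) + 8 * n := by
  induction n with
  | zero =>
    refine ⟨[], rfl, ?_⟩
    simp [wcost]
    omega
  | succ n ih =>
    obtain ⟨l, hl, hc⟩ := ih (fun t ht => h t (by omega))
    obtain ⟨l', hl', hc'⟩ := wk_adj Z (h n (by omega))
    refine ⟨l ++ l', wk_append hl hl', ?_⟩
    rw [wcost_append, Finset.sum_range_succ]
    omega

end weights

/-! ## old curves -/

section old

variable {V T : Type} {G H : SimpleGraph V}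

/-- the nodes on the old curve of a thread -/
def oldN (Th : Threads G T) (Z : Plz H) (τ : T) : Set Z.J :=
  {j | (∃ s ≤ Th.len τ, j = Z.vn (Th.x τ s)) ∨
    ∃ f : H.edgeSet, (∃ s < Th.len τ, (f : Sym2 V) = s(Th.x τ s, Th.x τ (s + 1))) ∧ j = Z.bn f}

/-- the inner vertices of a thread have degree at most two -/
theorem deg_inner (Th : Threads G T) (τ : T) (s : ℕ) (h0 : 0 < s) (hs : s < Th.len τ) :
    deg G (Th.x τ s) ≤ 2 := by
  have h1 : G.neighborSet (Th.x τ s) ⊆ {Th.x τ (s - 1), Th.x τ (s + 1)} := by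
    intro w hw
    obtain ⟨τ', t, ht, he⟩ := Th.cover _ _ hw
    have h2 : Th.x τ s = Th.x τ' t ∨ Th.x τ s = Th.x τ' (t + 1) := by
      rcases Sym2.eq_iff.1 he with ⟨h, _⟩ | ⟨h, _⟩
      · exact Or.inl h
      · exact Or.inr h
    have h3 : τ' = τ := by
      rcases h2 with h | h
      · exact Th.inner τ s h0 hs τ' t (by omega) h.symm
      · exact Th.inner τ s h0 hs τ' (t + 1) (by omega) h.symm
    subst h3
    rcases Sym2.eq_iff.1 he with ⟨h, h'⟩ | ⟨h, h'⟩
    · have := Th.inj _ _ _ (by omega) (by omega) h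
      subst this
      right
      exact h'
    · have := Th.inj _ _ _ (by omega) (by omega) h
      subst this
      left
      rw [h']
      simp
  refine (Set.ncard_le_ncard h1 (Set.toFinite _)).trans ?_
  exact (Set.ncard_insert_le _ _).trans (by rw [Set.ncard_singleton])

theorem deg_mono [Finite V] (hHG : H ≤ G) (v : V) : deg H v ≤ deg G v :=
  Set.ncard_le_ncard (fun _ hw => hHG hw) (Set.toFinite _)

/-- the sum of the weights on a thread -/
theorem sum_wt [Finite V] (hHG : H ≤ G) (Th : Threads G T) (Z : Plz H) (τ : T) (D : ℕ)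
    (hD : ∀ v, deg G v ≤ D) :
    ∑ k ∈ Finset.range (Th.len τ + 1), wt Z (Z.vn (Th.x τ k)) ≤ 2 * D + 2 * Th.len τ := by
  have h1 : ∀ k, wt Z (Z.vn (Th.x τ k)) ≤ D := fun k =>
    (wt_vn Z _).trans ((deg_mono hHG _).trans (hD _))
  have h2 : ∀ m, m < Th.len τ → ∑ k ∈ Finset.range (m + 1), wt Z (Z.vn (Th.x τ k)) ≤
      D + 2 * m := by
    intro m
    induction m with
    | zero =>
      intro _
      simpa using h1 0
    | succ m ih =>
      intro hm
      rw [Finset.sum_range_succ]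
      have h3 := ih (by omega)
      have h4 := (wt_vn Z (Th.x τ (m + 1))).trans
        ((deg_mono hHG _).trans (deg_inner Th τ (m + 1) (by omega) hm))
      omega
  obtain ⟨n, hn⟩ : ∃ n, Th.len τ = n + 1 := ⟨Th.len τ - 1, by have := Th.pos τ; omega⟩
  rw [hn, Finset.sum_range_succ]
  have h3 := h2 n (by omega)
  have h4 := h1 (n + 1)
  omega

/-- the nodes of an old curve are near its start -/
theorem old_near [Finite V] (hHG : H ≤ G) (Th : Threads G T) (Z : Plz H) (τ : T) (D B : ℕ)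
    (hD : ∀ v, deg G v ≤ D) (hH : ∀ t < Th.len τ, H.Adj (Th.x τ t) (Th.x τ (t + 1)))
    (j : Z.J) (hj : j ∈ oldN Th Z τ) :
    xD Z.src Z.tgt (cst Z) B (Z.vn (Th.x τ 0)) j ≤ 4 * D + 12 * Th.len τ + 4 := by
  have hsum := sum_wt hHG Th Z τ D hD
  have hpart : ∀ s, s ≤ Th.len τ → ∑ k ∈ Finset.range (s + 1), wt Z (Z.vn (Th.x τ k)) ≤
      ∑ k ∈ Finset.range (Th.len τ + 1), wt Z (Z.vn (Th.x τ k)) := fun s hs =>
    Finset.sum_le_sum_of_subset (Finset.range_subset_range.2 (by omega))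
  rcases hj with ⟨s, hs, rfl⟩ | ⟨f, ⟨s, hs, hf⟩, rfl⟩
  · obtain ⟨l, hl, hc⟩ := wk_fun Z (Th.x τ) s (fun t ht => hH t (by omega))
    have h1 := xD_le (cst Z) B hl
    have h2 := hpart s hs
    omega
  · obtain ⟨l, hl, hc⟩ := wk_fun Z (Th.x τ) s (fun t ht => hH t (by omega))
    obtain ⟨l', hl', hc'⟩ := wk_vb Z f (show Th.x τ s ∈ (f : Sym2 V) by
      rw [hf]
      exact Sym2.mem_mk_left _ _)
    have h1 := xD_le (cst Z) B (wk_append hl hl')
    rw [wcost_append] at h1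
    have h2 := hpart s hs.le
    omega

/-- through every node pass at most as many old curves as the weight of the node -/
theorem old_count [Finite V] (Th : Threads G T) (Z : Plz H) (S0 : Set T)
    (hH : ∀ τ, τ ∉ S0 → ∀ t < Th.len τ, H.Adj (Th.x τ t) (Th.x τ (t + 1))) (j : Z.J) :
    {τ | τ ∉ S0 ∧ j ∈ oldN Th Z τ}.ncard ≤ wt Z j := by
  classical
  have key : ∀ τ ∈ {τ | τ ∉ S0 ∧ j ∈ oldN Th Z τ}, ∃ i : H.edgeSet × Bool,
      (Z.src i = j ∨ Z.tgt i = j) ∧
        ∃ s < Th.len τ, (i.1 : Sym2 V) = s(Th.x τ s, Th.x τ (s + 1)) := by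
    rintro τ ⟨h0, hj⟩
    rcases hj with ⟨s, hs, rfl⟩ | ⟨f, ⟨s, hs, hf⟩, rfl⟩
    · have hpos := Th.pos τ
      obtain ⟨t, ht, hts⟩ : ∃ t < Th.len τ, Th.x τ s ∈ (s(Th.x τ t, Th.x τ (t + 1)) : Sym2 V) := by
        by_cases hlt : s < Th.len τ
        · exact ⟨s, hlt, Sym2.mem_mk_left _ _⟩
        · refine ⟨s - 1, by omega, ?_⟩
          have : s - 1 + 1 = s := by omega
          rw [this]
          exact Sym2.mem_mk_right _ _
      obtain ⟨i, e, h1, h2, _, _⟩ := half Z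
        (⟨s(Th.x τ t, Th.x τ (t + 1)), hH τ h0 t ht⟩ : H.edgeSet) hts
      refine ⟨i, ?_, t, ht, ?_⟩
      · cases e
        · exact Or.inl h2
        · exact Or.inr h2
      · rw [h1]
    · exact ⟨(f, true), Or.inl rfl, s, hs, hf⟩
  by_cases hne : ({τ | τ ∉ S0 ∧ j ∈ oldN Th Z τ} : Set T).Nonempty
  · obtain ⟨τ0, hτ0⟩ := hne
    obtain ⟨i0, _⟩ := key τ0 hτ0
    have key' : ∀ τ, ∃ i : H.edgeSet × Bool, τ ∈ {τ | τ ∉ S0 ∧ j ∈ oldN Th Z τ} →
        ((Z.src i = j ∨ Z.tgt i = j) ∧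
          ∃ s < Th.len τ, (i.1 : Sym2 V) = s(Th.x τ s, Th.x τ (s + 1))) := by
      intro τ
      by_cases h : τ ∈ {τ | τ ∉ S0 ∧ j ∈ oldN Th Z τ}
      · obtain ⟨i, hi⟩ := key τ h
        exact ⟨i, fun _ => hi⟩
      · exact ⟨i0, fun h' => absurd h' h⟩
    choose F hF using key'
    refine Set.ncard_le_ncard_of_injOn F (fun τ hτ => (hF τ hτ).1) ?_ (Set.toFinite _)
    intro τ hτ τ' hτ' he
    obtain ⟨s, hs, h1⟩ := (hF τ hτ).2
    obtain ⟨s', hs', h2⟩ := (hF τ' hτ').2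
    rw [he] at h1
    exact (Th.uniq τ τ' s s' hs hs' (h1.symm.trans h2)).1
  · rw [Set.not_nonempty_iff_eq_empty] at hne
    rw [hne, Set.ncard_empty]
    exact Nat.zero_le _

end old

end Pool.Agent.Helper93.UP
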